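import Mathlib
import Pool.Prelude.Def_F_0680883d

/-!
# Many dilates and many positions with gaps of length up to `2 p / |A|`
-/

open Polynomial Finset
open scoped Pointwise

namespace Pool.Agent.Results.MP_3c1bce_co.ManyDilates

variable {p : ℕ} [Fact p.Prime]

/-! ## bivariate polynomials: total degree -/

/-- total degree at most `N` of a polynomial in `T` (inner) and `Y` (outer) -/
def TD (N : ℕ) (F : (ZMod p)[X][X]) : Prop := ∀ i j, N < i + j → (F.coeff j).coeff i = 0

lemma TD.mul {N M : ℕ} {F G : (ZMod p)[X][X]} (hF : TD N F) (hG : TD M G) : TD (N + M) (F * G) := by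
  intro i j hij
  rw [coeff_mul, finsetSum_coeff]
  refine Finset.sum_eq_zero fun x hx => ?_
  rw [HasAntidiagonal.mem_antidiagonal] at hx
  rw [coeff_mul]
  refine Finset.sum_eq_zero fun y hy => ?_
  rw [HasAntidiagonal.mem_antidiagonal] at hy
  by_cases h : N < y.1 + x.1
  · rw [hF _ _ h, zero_mul]
  · rw [hG y.2 x.2 (by omega), mul_zero]

lemma TD.one : TD 0 (1 : (ZMod p)[X][X]) := by
  intro i j hij
  rw [coeff_one]
  split_ifs with h
  · subst h
    rw [coeff_one, if_neg (by omega)]
  · simp

lemma TD.linear (a b : ZMod p) : TD 1 (X - C (C a + C b * X) : (ZMod p)[X][X]) := by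
  intro i j hij
  rw [coeff_sub, coeff_X, coeff_C]
  rcases Nat.eq_zero_or_pos j with h | h
  · subst h
    rw [if_neg (by norm_num), if_pos rfl, coeff_sub, coeff_add, coeff_C, coeff_C_mul, coeff_X,
      if_neg (by omega), if_neg (by omega)]
    simp
  · rcases Nat.eq_or_lt_of_le h with h1 | h1
    · rw [← h1]
      simp only [Nat.succ_eq_add_one, zero_add, if_true, one_ne_zero, if_false, sub_zero]
      rw [coeff_one, if_neg (by omega)]
    · rw [if_neg (by omega), if_neg (by omega)]
      simp

lemma TD.prod {ι : Type*} (s : Finset ι) (F : ι → (ZMod p)[X][X]) (h : ∀ i ∈ s, TD 1 (F i)) :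
    TD s.card (∏ i ∈ s, F i) := by
  classical
  induction s using Finset.induction_on with
  | empty => simpa using TD.one
  | insert a s ha ih =>
    rw [prod_insert ha, card_insert_of_notMem ha, add_comm]
    exact (h a (mem_insert_self _ _)).mul (ih fun i hi => h i (mem_insert_of_mem hi))

/-! ## divisibility -/

lemma dvd_of_vanish {P : (ZMod p)[X]} (h : ∀ y, P.eval y = 0) : (X ^ p - X) ∣ P := by
  have hp := (Fact.out : p.Prime).one_lt
  have hm : (X ^ p - X : (ZMod p)[X]).Monic := by
    apply monic_X_pow_sub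
    rw [degree_X]
    exact_mod_cast hp
  rw [← modByMonic_eq_zero_iff_dvd hm]
  by_contra hne
  have hdeg : (P %ₘ (X ^ p - X)).natDegree < p := by
    have h1 := degree_modByMonic_lt P hm
    have h2 : (X ^ p - X : (ZMod p)[X]).degree = p := by
      rw [degree_sub_eq_left_of_degree_lt]
      · exact degree_X_pow p
      · rw [degree_X_pow, degree_X]; exact_mod_cast hp
    rw [h2] at h1
    exact (natDegree_lt_iff_degree_lt hne).mpr h1
  have hroots : ∀ y : ZMod p, (P %ₘ (X ^ p - X)).eval y = 0 := by
    intro y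
    have h1 := congrArg (eval y) (modByMonic_add_div P (X ^ p - X : (ZMod p)[X]))
    rw [eval_add, eval_mul, eval_sub, eval_pow, eval_X, ZMod.pow_card, sub_self, zero_mul, add_zero,
      h y] at h1
    exact h1
  have h3 := card_roots' (P %ₘ (X ^ p - X))
  have h4 : (univ : Finset (ZMod p)).card ≤ (P %ₘ (X ^ p - X)).roots.card := by
    calc (univ : Finset (ZMod p)).card ≤ (P %ₘ (X ^ p - X)).roots.toFinset.card := by
          apply card_le_card
          intro y _
          rw [Multiset.mem_toFinset, mem_roots hne]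
          exact hroots y
      _ ≤ _ := Multiset.toFinset_card_le _
  rw [card_univ, ZMod.card] at h4
  omega

lemma coeff_zero_of_dvd {P : (ZMod p)[X]} {N j : ℕ} (h : (X ^ p - X) ∣ P) (hN : P.natDegree ≤ N)
    (h1 : N + 1 < j + p) (h2 : j < p) : P.coeff j = 0 := by
  have hp := (Fact.out : p.Prime).one_lt
  obtain ⟨G, rfl⟩ := h
  by_cases hG : G = 0
  · simp [hG]
  have hm : (X ^ p - X : (ZMod p)[X]).Monic := by
    apply monic_X_pow_sub
    rw [degree_X]
    exact_mod_cast hp
  have hd : (X ^ p - X : (ZMod p)[X]).natDegree = p := by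
    rw [natDegree_sub_eq_left_of_natDegree_lt]
    · exact natDegree_X_pow p
    · rw [natDegree_X_pow, natDegree_X]; exact hp
  rw [hm.natDegree_mul' hG, hd] at hN
  rw [sub_mul, coeff_sub, coeff_X_pow_mul', if_neg (by omega), zero_sub, neg_eq_zero]
  rcases Nat.eq_zero_or_pos j with h3 | h3
  · subst h3; simp
  · obtain ⟨k, rfl⟩ : ∃ k, j = k + 1 := ⟨j - 1, by omega⟩
    rw [coeff_X_mul]
    exact coeff_eq_zero_of_natDegree_lt (by omega)

/-- the lacunary lemma -/
lemma lacunary {F : (ZMod p)[X][X]} {N : ℕ} (hF : TD N F) (T0 : Finset (ZMod p))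
    (h : ∀ t ∈ T0, ∀ y, (F.map (evalRingHom t)).eval y = 0) {j : ℕ} (h1 : N + 1 < j + p)
    (h2 : j < p) (h3 : N < j + T0.card) : F.coeff j = 0 := by
  by_contra hne
  have hd : (F.coeff j).natDegree ≤ N - j := by
    rw [natDegree_le_iff_coeff_eq_zero]
    intro i hi
    exact hF i j (by omega)
  have hroot : ∀ t ∈ T0, (F.coeff j).eval t = 0 := by
    intro t ht
    have hdeg : (F.map (evalRingHom t)).natDegree ≤ N := by
      rw [natDegree_le_iff_coeff_eq_zero]
      intro k hk
      rw [coeff_map]
      have : F.coeff k = 0 := by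
        ext i
        rw [hF i k (by omega), coeff_zero]
      rw [this, map_zero]
    have h4 := coeff_zero_of_dvd (dvd_of_vanish (h t ht)) hdeg h1 h2
    rwa [coeff_map, coe_evalRingHom] at h4
  have h5 : T0.card ≤ (F.coeff j).natDegree := by
    calc T0.card ≤ (F.coeff j).roots.toFinset.card := by
          apply card_le_card
          intro t ht
          rw [Multiset.mem_toFinset, mem_roots hne]
          exact hroot t ht
      _ ≤ (F.coeff j).roots.card := Multiset.toFinset_card_le _
      _ ≤ _ := card_roots' _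
  have h6 : 0 < T0.card ∨ T0.card = 0 := by omega
  rcases h6 with h6 | h6
  · omega
  · -- then `N < j` and the coefficient vanishes
    apply hne
    ext i
    rw [hF i j (by omega), coeff_zero]

/-! ## multiplicities -/

lemma mult_eq {F g : (ZMod p)[X]} (hF : F ≠ 0) (hg : g ≠ 0)
    (h : derivative F * g = F * derivative g) (a : ZMod p) :
    ((F.rootMultiplicity a : ℕ) : ZMod p) = ((g.rootMultiplicity a : ℕ) : ZMod p) := by
  obtain ⟨F1, hF1, hF2⟩ := exists_eq_pow_rootMultiplicity_mul_and_not_dvd F hF a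
  obtain ⟨g1, hg1, hg2⟩ := exists_eq_pow_rootMultiplicity_mul_and_not_dvd g hg a
  set α := F.rootMultiplicity a
  set β := g.rootMultiplicity a
  have d1 : (X - C a) * derivative F = (X - C a) ^ α * (C (α : ZMod p) * F1 + (X - C a) * derivative F1) := by
    rw [hF1, derivative_mul, derivative_X_sub_C_pow]
    rcases Nat.eq_zero_or_pos α with h0 | h0
    · rw [h0]; simp
    · obtain ⟨k, hk⟩ : ∃ k, α = k + 1 := ⟨α - 1, by omega⟩
      rw [hk, Nat.add_sub_cancel]
      push_cast
      rw [map_add, map_one]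
      ring_nf
  have d2 : (X - C a) * derivative g = (X - C a) ^ β * (C (β : ZMod p) * g1 + (X - C a) * derivative g1) := by
    rw [hg1, derivative_mul, derivative_X_sub_C_pow]
    rcases Nat.eq_zero_or_pos β with h0 | h0
    · rw [h0]; simp
    · obtain ⟨k, hk⟩ : ∃ k, β = k + 1 := ⟨β - 1, by omega⟩
      rw [hk, Nat.add_sub_cancel]
      push_cast
      rw [map_add, map_one]
      ring_nf
  have h1 : (X - C a) * derivative F * g = F * ((X - C a) * derivative g) := by
    rw [mul_assoc, h]; ring
  rw [d1, d2, hg1, hF1] at h1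
  have h2 : (X - C a) ^ α * (X - C a) ^ β * ((C (α : ZMod p) * F1 + (X - C a) * derivative F1) * g1) =
      (X - C a) ^ α * (X - C a) ^ β * (F1 * (C (β : ZMod p) * g1 + (X - C a) * derivative g1)) := by
    linear_combination h1
  have hne : (X - C a) ^ α * (X - C a) ^ β ≠ 0 :=
    mul_ne_zero (pow_ne_zero _ (X_sub_C_ne_zero a)) (pow_ne_zero _ (X_sub_C_ne_zero a))
  have h3 := mul_left_cancel₀ hne h2
  have h4 := congrArg (eval a) h3
  simp only [eval_mul, eval_add, eval_sub, eval_X, eval_C, sub_self, zero_mul, add_zero] at h4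
  have e1 : F1.eval a ≠ 0 := fun h0 => hF2 (dvd_iff_isRoot.mpr h0)
  have e2 : g1.eval a ≠ 0 := fun h0 => hg2 (dvd_iff_isRoot.mpr h0)
  have h5 : ((α : ZMod p) - β) * (F1.eval a * g1.eval a) = 0 := by linear_combination h4
  rcases mul_eq_zero.mp h5 with h6 | h6
  · exact sub_eq_zero.mp h6
  · exact absurd h6 (mul_ne_zero e1 e2)

lemma natCast_inj_of_lt {a b : ℕ} (ha : a < p) (hb : b < p) (h : (a : ZMod p) = b) : a = b := by
  have := (ZMod.natCast_eq_natCast_iff a b p).mp h
  exact Nat.ModEq.eq_of_lt_of_lt this ha hb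

/-! ## the one variable argument -/

/-- `∏ (X - a) ^ L` -/
noncomputable def ff (A : Finset (ZMod p)) (L : ℕ) : (ZMod p)[X] := ∏ a ∈ A, (X - C a) ^ L

lemma ff_ne_zero (A : Finset (ZMod p)) (L : ℕ) : ff A L ≠ 0 :=
  Finset.prod_ne_zero_iff.mpr fun a _ => pow_ne_zero _ (X_sub_C_ne_zero a)

lemma natDegree_ff (A : Finset (ZMod p)) (L : ℕ) : (ff A L).natDegree = A.card * L := by
  rw [ff, natDegree_prod_of_monic]
  · simp [natDegree_pow]
  · exact fun a _ => (monic_X_sub_C a).pow L

lemma coprime_pows (A : Finset (ZMod p)) (L : ℕ) :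
    Set.Pairwise (A : Set (ZMod p)) (Function.onFun IsCoprime fun a => (X - C a : (ZMod p)[X]) ^ L) := by
  intro a _ b _ hab
  exact (pairwise_coprime_X_sub_C (fun _ _ h => h) hab).pow

lemma ff_dvd {A : Finset (ZMod p)} {L : ℕ} {P : (ZMod p)[X]} (h : ∀ a ∈ A, (X - C a) ^ L ∣ P) :
    ff A L ∣ P :=
  Finset.prod_dvd_of_coprime (coprime_pows A L) h

lemma rootMult_le {A : Finset (ZMod p)} {L : ℕ} {D0 : (ZMod p)[X]} (hD : D0 ≠ 0) {a : ZMod p}
    (ha : a ∈ A) : (D0 * ff A L).rootMultiplicity a ≤ D0.natDegree + L := by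
  have h1 : ff A L = (X - C a) ^ L * ff (A.erase a) L := by
    rw [ff, ff, Finset.mul_prod_erase A (fun a => (X - C a) ^ L) ha]
  have h2 : (ff (A.erase a) L).rootMultiplicity a = 0 := by
    rw [rootMultiplicity_eq_zero_iff]
    intro h0
    exfalso
    rw [IsRoot.def, ff, eval_prod, Finset.prod_eq_zero_iff] at h0
    obtain ⟨b, hb, hb0⟩ := h0
    rw [eval_pow, eval_sub, eval_X, eval_C] at hb0
    have h3 : a - b = 0 := by
      by_contra hne
      exact pow_ne_zero _ hne hb0
    exact (Finset.ne_of_mem_erase hb) (sub_eq_zero.mp h3).symm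
  have hne : D0 * ff A L ≠ 0 := mul_ne_zero hD (ff_ne_zero A L)
  rw [rootMultiplicity_mul hne, h1, rootMultiplicity_mul (by rw [← h1]; exact ff_ne_zero A L), h2,
    rootMultiplicity_X_sub_C_pow, add_zero]
  have h4 : D0.rootMultiplicity a ≤ D0.natDegree := by
    rw [← count_roots]
    exact (Multiset.count_le_card _ _).trans (card_roots' D0)
  omega

/-- main one variable lemma -/
lemma main_one {A : Finset (ZMod p)} {L : ℕ} (hL : 1 ≤ L) {D0 : (ZMod p)[X]}
    (hD : D0 ≠ 0) {N M : ℕ} (hN : (D0 * ff A L).natDegree ≤ N)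
    (hcoef : ∀ j, M < j → j < p → (D0 * ff A L).coeff j = 0)
    (hm : D0.natDegree + L < p) (hNp : N < A.card * L + p) (hN2 : N < 2 * p) (hM : M < A.card * L) :
    A.card * (L - 1) + p < M + N := by
  have hp := (Fact.out : p.Prime).one_lt
  set F0 := D0 * ff A L with hF0
  have hFne : F0 ≠ 0 := mul_ne_zero hD (ff_ne_zero A L)
  have hmon : (X ^ p : (ZMod p)[X]).Monic := monic_X_pow p
  set g := F0 /ₘ X ^ p with hg
  set h := F0 %ₘ X ^ p with hh
  have hdec : h + X ^ p * g = F0 := modByMonic_add_div F0 (X ^ p)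
  have hgdeg : g.natDegree ≤ N - p := by
    rw [hg, natDegree_divByMonic _ hmon, natDegree_X_pow]
    omega
  have hhlt : ∀ j, p ≤ j → h.coeff j = 0 := by
    intro j hj
    apply coeff_eq_zero_of_degree_lt
    have h1 := degree_modByMonic_lt F0 hmon
    rw [degree_X_pow] at h1
    exact lt_of_lt_of_le h1 (by exact_mod_cast hj)
  have hhdeg : h.natDegree ≤ M := by
    rw [natDegree_le_iff_coeff_eq_zero]
    intro j hj
    by_cases h2 : j < p
    · have h3 := hcoef j hj h2
      rw [← hdec, coeff_add, coeff_X_pow_mul', if_neg (by omega), add_zero] at h3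
      exact h3
    · exact hhlt j (by omega)
  -- `g ≠ 0`
  have hFdeg : A.card * L ≤ F0.natDegree := by
    rw [hF0, natDegree_mul hD (ff_ne_zero A L), natDegree_ff]
    omega
  have hg0 : g ≠ 0 := by
    intro h0
    rw [h0, mul_zero, add_zero] at hdec
    rw [hdec] at hhdeg
    omega
  have hder : derivative F0 = derivative h + X ^ p * derivative g := by
    rw [← hdec, derivative_add, derivative_mul, derivative_X_pow]
    simp
  have hW : derivative F0 * g - F0 * derivative g = derivative h * g - h * derivative g := by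
    rw [hder, ← hdec]; ring
  by_cases hW0 : derivative F0 * g - F0 * derivative g = 0
  · -- multiplicities
    exfalso
    have heq : derivative F0 * g = F0 * derivative g := sub_eq_zero.mp hW0
    have hdv : ff A L ∣ g := by
      apply ff_dvd
      intro a ha
      have h1 := mult_eq hFne hg0 heq a
      have h2 : F0.rootMultiplicity a < p := lt_of_le_of_lt (rootMult_le hD ha) hm
      have h3 : g.rootMultiplicity a < p := by
        have : g.rootMultiplicity a ≤ g.natDegree := by
          rw [← count_roots]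
          exact (Multiset.count_le_card _ _).trans (card_roots' g)
        omega
      have h4 := natCast_inj_of_lt h2 h3 h1
      have h5 : L ≤ F0.rootMultiplicity a := by
        rw [le_rootMultiplicity_iff hFne, hF0]
        exact Dvd.dvd.mul_left (Finset.dvd_prod_of_mem (fun a => (X - C a) ^ L) ha) _
      rw [← le_rootMultiplicity_iff hg0]
      omega
    have h6 := natDegree_le_of_dvd hdv hg0
    rw [natDegree_ff] at h6
    omega
  · have hdv : ff A (L - 1) ∣ derivative F0 * g - F0 * derivative g := by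
      apply ff_dvd
      intro a ha
      have h1 : (X - C a) ^ L ∣ F0 := by
        rw [hF0]
        exact Dvd.dvd.mul_left (Finset.dvd_prod_of_mem (fun a => (X - C a) ^ L) ha) _
      have h2 : (X - C a) ^ (L - 1) ∣ F0 := (pow_dvd_pow _ (by omega)).trans h1
      have h3 : (X - C a) ^ (L - 1) ∣ derivative F0 := by
        obtain ⟨Q, hQ⟩ := h1
        rw [hQ, derivative_mul, derivative_X_sub_C_pow]
        refine dvd_add ?_ ?_
        · rw [mul_assoc, mul_left_comm]
          exact Dvd.intro _ rfl
        · exact Dvd.dvd.mul_right (pow_dvd_pow _ (by omega)) _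
      exact dvd_sub (Dvd.dvd.mul_right h3 _) (Dvd.dvd.mul_right h2 _)
    have h6 := natDegree_le_of_dvd hdv hW0
    rw [natDegree_ff, hW] at h6
    rw [hW] at hW0
    have hh0 : h ≠ 0 := by
      rintro h0
      apply hW0
      rw [h0]; simp
    have h7 : (derivative h * g - h * derivative g).degree < h.degree + g.degree := by
      refine lt_of_le_of_lt (degree_sub_le _ _) (max_lt ?_ ?_)
      · rw [degree_mul]
        exact WithBot.add_lt_add_right (by rwa [Ne, degree_eq_bot]) (degree_derivative_lt hh0)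
      · rw [degree_mul]
        exact WithBot.add_lt_add_left (by rwa [Ne, degree_eq_bot]) (degree_derivative_lt hg0)
    rw [degree_eq_natDegree hW0, degree_eq_natDegree hh0, degree_eq_natDegree hg0] at h7
    have h8 : (derivative h * g - h * derivative g).natDegree < h.natDegree + g.natDegree := by
      exact_mod_cast h7
    by_cases hNN : p ≤ N
    · omega
    · -- then `g` would be zero
      exfalso
      apply hg0
      rw [hg, divByMonic_eq_zero_iff hmon, degree_X_pow]
      have := natDegree_lt_iff_degree_lt hFne (n := p) |>.mp (by omega)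
      exact this

/-! ## the bivariate product -/

noncomputable def HH (A : Finset (ZMod p)) (L : ℕ) : (ZMod p)[X][X] :=
  ∏ x ∈ A ×ˢ range L, (X - C (C x.1 + C (x.2 : ZMod p) * X))

lemma TD_HH (A : Finset (ZMod p)) (L : ℕ) : TD (A.card * L) (HH A L) := by
  have h := TD.prod (A ×ˢ range L) (fun x => (X - C (C x.1 + C (x.2 : ZMod p) * X) : (ZMod p)[X][X]))
    (fun x _ => TD.linear _ _)
  rwa [card_product, card_range] at h

lemma map_HH (A : Finset (ZMod p)) (L : ℕ) (t : ZMod p) :
    (HH A L).map (evalRingHom t) = ∏ x ∈ A ×ˢ range L, (X - C (x.1 + (x.2 : ZMod p) * t)) := by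
  rw [HH, Polynomial.map_prod]
  refine Finset.prod_congr rfl fun x _ => ?_
  rw [Polynomial.map_sub, map_X, map_C, coe_evalRingHom, eval_add, eval_mul, eval_C, eval_C, eval_X]

lemma map_HH_zero (A : Finset (ZMod p)) (L : ℕ) : (HH A L).map (evalRingHom 0) = ff A L := by
  rw [map_HH, ff, Finset.prod_product]
  refine Finset.prod_congr rfl fun a _ => ?_
  simp

/-- no polynomial `D` of degree `≤ d` can repair the covering -/
lemma no_cover {A : Finset (ZMod p)} (hA : 2 ≤ A.card) {L : ℕ} (hL : 1 ≤ L) {d : ℕ}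
    {D : (ZMod p)[X][X]} (hD : TD d D) (hD0 : D.map (evalRingHom 0) ≠ 0) (T0 : Finset (ZMod p))
    (hd : d < T0.card) (hT : T0.card + 1 ≤ p)
    (h : ∀ t ∈ T0, ∀ y, (D.map (evalRingHom t)).eval y * ((HH A L).map (evalRingHom t)).eval y = 0) :
    p + T0.card < 2 * d + A.card * L + A.card := by
  by_contra hcon
  push Not at hcon
  have hF : TD (d + A.card * L) (D * HH A L) := hD.mul (TD_HH A L)
  have h0 : (D * HH A L).map (evalRingHom 0) = D.map (evalRingHom 0) * ff A L := by
    rw [Polynomial.map_mul, map_HH_zero]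
  have hdeg : ∀ {N : ℕ} {G : (ZMod p)[X][X]}, TD N G → (G.map (evalRingHom 0)).natDegree ≤ N := by
    intro N G hG
    rw [natDegree_le_iff_coeff_eq_zero]
    intro k hk
    rw [coeff_map]
    have : G.coeff k = 0 := by
      ext i
      rw [hG i k (by omega), coeff_zero]
    rw [this, map_zero]
  have hn : 2 * L ≤ A.card * L := Nat.mul_le_mul_right L hA
  have hn2 : A.card ≤ A.card * L := Nat.le_mul_of_pos_right _ hL
  have hD0deg := hdeg hD
  have key := main_one (A := A) hL hD0 (N := d + A.card * L) (M := d + A.card * L - T0.card)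
    (by rw [← h0]; exact hdeg hF) (by
      intro j h1 h2
      rw [← h0, coeff_map]
      rw [lacunary hF T0 (by
        intro t ht y
        rw [Polynomial.map_mul, eval_mul]
        exact h t ht y) (by omega) h2 (by omega), map_zero])
    (by omega) (by omega) (by omega) (by omega)
  have h5 : A.card * (L - 1) = A.card * L - A.card := by
    rw [Nat.mul_sub, mul_one]
  rw [h5] at key
  omega

/-! ## interpolation -/

lemma exists_D (d : ℕ) (U : Finset (ZMod p × ZMod p)) (hU : 2 * U.card < (d + 1) * (d + 2)) :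
    ∃ D : (ZMod p)[X][X], D ≠ 0 ∧ TD d D ∧ ∀ u ∈ U, (D.map (evalRingHom u.1)).eval u.2 = 0 := by
  classical
  set I : Finset (Σ _ : ℕ, ℕ) := (range (d + 1)).sigma fun k => range (k + 1) with hI
  have hmem : ∀ z ∈ I, z.2 ≤ z.1 ∧ z.1 ≤ d := by
    intro z hz
    rw [hI, Finset.mem_sigma, mem_range, mem_range] at hz
    omega
  have hcard : 2 * I.card = (d + 1) * (d + 2) := by
    rw [hI, card_sigma]
    simp only [card_range]
    rw [mul_comm]
    have := Finset.sum_range_id_mul_two (d + 2)
    rw [Finset.sum_range_succ' (fun i => i)] at this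
    simp only [add_zero] at this
    rw [this]
    simp
    ring
  let f : (I → ZMod p) →ₗ[ZMod p] (U → ZMod p) :=
    { toFun := fun c u => ∑ x : I, c x * (u.1.1 ^ x.1.2 * u.1.2 ^ (x.1.1 - x.1.2))
      map_add' := by
        intro c c'
        ext u
        simp only [Pi.add_apply, add_mul, Finset.sum_add_distrib]
      map_smul' := by
        intro r c
        ext u
        simp only [Pi.smul_apply, smul_eq_mul, RingHom.id_apply, Finset.mul_sum, mul_assoc] }
  have hker : LinearMap.ker f ≠ ⊥ := by
    apply LinearMap.ker_ne_bot_of_finrank_lt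
    rw [Module.finrank_fintype_fun_eq_card, Module.finrank_fintype_fun_eq_card,
      Fintype.card_coe, Fintype.card_coe]
    omega
  obtain ⟨c, hc, hc0⟩ := (Submodule.ne_bot_iff _).mp hker
  rw [LinearMap.mem_ker] at hc
  let D : (ZMod p)[X][X] := ∑ x : I, monomial (x.1.1 - x.1.2) (monomial x.1.2 (c x))
  have hco : ∀ i j, (D.coeff j).coeff i =
      ∑ x : I, if x.1.1 - x.1.2 = j ∧ x.1.2 = i then c x else 0 := by
    intro i j
    simp only [D, finsetSum_coeff, coeff_monomial]
    refine Finset.sum_congr rfl fun x _ => ?_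
    by_cases h1 : x.1.1 - x.1.2 = j
    · by_cases h2 : x.1.2 = i
      · rw [if_pos h1, coeff_monomial, if_pos h2, if_pos ⟨h1, h2⟩]
      · rw [if_pos h1, coeff_monomial, if_neg h2, if_neg (fun h => h2 h.2)]
    · rw [if_neg h1, coeff_zero, if_neg (fun h => h1 h.1)]
  refine ⟨D, ?_, ?_, ?_⟩
  · intro hD0
    apply hc0
    ext x
    have h1 := hco x.1.2 (x.1.1 - x.1.2)
    rw [hD0] at h1
    simp only [coeff_zero] at h1
    rw [Finset.sum_eq_single x] at h1
    · simpa using h1.symm
    · intro y _ hyx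
      rw [if_neg]
      rintro ⟨e1, e2⟩
      apply hyx
      have hy := hmem _ y.2
      have hx := hmem _ x.2
      apply Subtype.ext
      have e3 : y.1.1 = x.1.1 := by omega
      exact Sigma.ext e3 (heq_of_eq e2)
    · intro h; exact absurd (mem_univ x) h
  · intro i j hij
    rw [hco]
    refine Finset.sum_eq_zero fun x _ => ?_
    rw [if_neg]
    rintro ⟨e1, e2⟩
    have hx := hmem _ x.2
    omega
  · intro u hu
    have h1 := congrFun hc ⟨u, hu⟩
    simp only [f, LinearMap.coe_mk, AddHom.coe_mk, Pi.zero_apply] at h1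
    simp only [D, Polynomial.map_sum, eval_finsetSum, Polynomial.map_monomial, eval_monomial,
      coe_evalRingHom]
    rw [← h1]
    refine Finset.sum_congr rfl fun x _ => ?_
    ring

lemma exists_D' (d : ℕ) (U : Finset (ZMod p × ZMod p)) (hU0 : ∀ u ∈ U, u.1 ≠ 0)
    (D : (ZMod p)[X][X]) (h0 : D ≠ 0) (h1 : TD d D)
    (h2 : ∀ u ∈ U, (D.map (evalRingHom u.1)).eval u.2 = 0) :
    ∃ D' : (ZMod p)[X][X], D'.map (evalRingHom 0) ≠ 0 ∧ TD d D' ∧
      ∀ u ∈ U, (D'.map (evalRingHom u.1)).eval u.2 = 0 := by
  induction d generalizing D with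
  | zero =>
    refine ⟨D, ?_, h1, h2⟩
    intro h3
    apply h0
    ext j i
    rw [coeff_zero, coeff_zero]
    by_cases hij : 0 < i + j
    · exact h1 i j hij
    · have hi : i = 0 := by omega
      have hj : j = 0 := by omega
      subst hi hj
      have h4 := congrArg (fun q => q.coeff 0) h3
      simp only [coeff_map, coe_evalRingHom, coeff_zero] at h4
      rwa [← coeff_zero_eq_eval_zero] at h4
  | succ d ih =>
    by_cases h3 : D.map (evalRingHom 0) = 0
    · have h4 : ∀ j, (X : (ZMod p)[X]) ∣ D.coeff j := by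
        intro j
        rw [X_dvd_iff]
        have h4 := congrArg (fun q => q.coeff j) h3
        simp only [coeff_map, coe_evalRingHom, coeff_zero] at h4
        rwa [← coeff_zero_eq_eval_zero] at h4
      obtain ⟨D1, hD1⟩ := (C_dvd_iff_dvd_coeff (X : (ZMod p)[X]) D).mpr h4
      have h5 : D1 ≠ 0 := by rintro rfl; apply h0; rw [hD1, mul_zero]
      have h6 : TD d D1 := by
        intro i j hij
        have h7 := h1 (i + 1) j (by omega)
        rw [hD1, coeff_C_mul, coeff_X_mul] at h7
        exact h7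
      have h7 : ∀ u ∈ U, (D1.map (evalRingHom u.1)).eval u.2 = 0 := by
        intro u hu
        have h8 := h2 u hu
        rw [hD1, Polynomial.map_mul, eval_mul, map_C, eval_C, coe_evalRingHom, eval_X] at h8
        exact (mul_eq_zero.mp h8).resolve_left (hU0 u hu)
      obtain ⟨D', a1, a2, a3⟩ := ih D1 h5 h6 h7
      exact ⟨D', a1, fun i j hij => a2 i j (by omega), a3⟩
    · exact ⟨D, h3, h1, h2⟩

/-! ## translation -/

lemma HH_eval_zero {A : Finset (ZMod p)} {L : ℕ} (c : (ZMod p)ˣ) (y : ZMod p)
    (h : ∃ i < L, (c : ZMod p) * y + (i : ZMod p) ∈ c • A) :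
    ((HH A L).map (evalRingHom (-((c⁻¹ : (ZMod p)ˣ) : ZMod p)))).eval y = 0 := by
  obtain ⟨i, hi, hm⟩ := h
  rw [Finset.mem_smul_finset] at hm
  obtain ⟨a, ha, he⟩ := hm
  rw [map_HH, eval_prod]
  apply Finset.prod_eq_zero (i := (a, i)) (by simp [ha, hi])
  rw [eval_sub, eval_X, eval_C]
  have h1 : (c : ZMod p) * a = c * y + i := by simpa [Units.smul_def] using he
  have h2 : ((c⁻¹ : (ZMod p)ˣ) : ZMod p) * c = 1 := Units.inv_mul c
  linear_combination (-((c⁻¹ : (ZMod p)ˣ) : ZMod p)) * h1 + (a - y) * h2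

open Classical in
/-- Let `p` be a prime, `A ⊆ ℤ/p` with at least two elements and `L ≥ 0`.
(1) either every dilate `c • A` has a gap of length `L`, or at least `2 p - |A| (L + 1)` of the
`p - 1` dilates have one; (2) if `|A| (L + 1) ≤ 2 p` then at least `(2 p - |A| (L + 1)) ^ 2 / 8` of
the pairs `(c, x)` satisfy `x, x + 1, ..., x + L - 1 ∉ c • A`. -/
theorem result (p : ℕ) [Fact p.Prime] (A : Finset (ZMod p)) (hA : 2 ≤ A.card) (L : ℕ) :
    (p - 1 ≤ (univ.filter fun c : (ZMod p)ˣ => Nc949c4d7.HasGap (c • A) L).card ∨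
      2 * p ≤ (univ.filter fun c : (ZMod p)ˣ => Nc949c4d7.HasGap (c • A) L).card +
        A.card * (L + 1)) ∧
    (A.card * (L + 1) ≤ 2 * p → (2 * p - A.card * (L + 1)) ^ 2 ≤
      8 * (univ.filter fun z : (ZMod p)ˣ × ZMod p =>
        ∀ i : ℕ, i < L → z.2 + (i : ZMod p) ∉ z.1 • A).card) := by
  have hp := (Fact.out : p.Prime).one_lt
  have hunits : Fintype.card (ZMod p)ˣ = p - 1 := ZMod.card_units p
  rcases Nat.eq_zero_or_pos L with hL | hL
  · subst hL
    constructor
    · left
      have : (univ.filter fun c : (ZMod p)ˣ => Nc949c4d7.HasGap (c • A) 0) = univ := by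
        ext c
        simp only [mem_filter, mem_univ, true_and, iff_true]
        exact ⟨0, fun i hi => absurd hi (Nat.not_lt_zero i)⟩
      rw [this, card_univ, hunits]
    · intro _
      have : (univ.filter fun z : (ZMod p)ˣ × ZMod p =>
          ∀ i : ℕ, i < 0 → z.2 + (i : ZMod p) ∉ z.1 • A) = univ := by
        ext z
        simp
      rw [this, card_univ, Fintype.card_prod, hunits, ZMod.card]
      obtain ⟨k, rfl⟩ : ∃ k, p = k + 2 := ⟨p - 2, by omega⟩
      have h1 : 2 * (k + 2) - A.card * (0 + 1) ≤ 2 * (k + 1) := by omega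
      have h2 : k + 2 - 1 = k + 1 := by omega
      rw [h2]
      calc (2 * (k + 2) - A.card * (0 + 1)) ^ 2 ≤ (2 * (k + 1)) ^ 2 := Nat.pow_le_pow_left h1 2
        _ ≤ 8 * ((k + 1) * (k + 2)) := by nlinarith
  have hAL : A.card * (L + 1) = A.card * L + A.card := by ring
  have hinj : Function.Injective fun c : (ZMod p)ˣ => -((c⁻¹ : (ZMod p)ˣ) : ZMod p) := by
    intro c c' h
    simp only [neg_inj] at h
    exact inv_injective (Units.ext h)
  constructor
  · -- (1)
    by_contra hcon
    push Not at hcon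
    obtain ⟨h1, h2⟩ := hcon
    set bad := univ.filter fun c : (ZMod p)ˣ => Nc949c4d7.HasGap (c • A) L with hbad
    set good := univ.filter fun c : (ZMod p)ˣ => ¬ Nc949c4d7.HasGap (c • A) L with hgood
    have hsum : bad.card + good.card = p - 1 := by
      rw [hbad, hgood, Finset.card_filter_add_card_filter_not, card_univ, hunits]
    set T0 := good.image fun c : (ZMod p)ˣ => -((c⁻¹ : (ZMod p)ˣ) : ZMod p) with hT0
    have hT0c : T0.card = good.card := card_image_of_injective _ hinj
    have h3 := no_cover (A := A) hA hL (d := 0) TD.one (by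
      rw [Polynomial.map_one]; exact one_ne_zero) T0 (by omega) (by omega) (by
        intro t ht y
        rw [hT0, mem_image] at ht
        obtain ⟨c, hc, rfl⟩ := ht
        rw [hgood, mem_filter] at hc
        have h4 := hc.2
        unfold Nc949c4d7.HasGap at h4
        push Not at h4
        rw [HH_eval_zero c y (h4 _), mul_zero])
    omega
  · -- (2)
    intro hle
    by_contra hcon
    push Not at hcon
    set U' := univ.filter fun z : (ZMod p)ˣ × ZMod p =>
        ∀ i : ℕ, i < L → z.2 + (i : ZMod p) ∉ z.1 • A with hU'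
    set x := 2 * p - A.card * (L + 1) with hx
    have hn : 4 ≤ A.card * (L + 1) := by nlinarith
    have hx1 : 1 ≤ x := by
      by_contra h
      have : x = 0 := by omega
      rw [this] at hcon
      omega
    set U := U'.image fun z : (ZMod p)ˣ × ZMod p =>
      (-((z.1⁻¹ : (ZMod p)ˣ) : ZMod p), ((z.1⁻¹ : (ZMod p)ˣ) : ZMod p) * z.2) with hU
    have hUc : U.card ≤ U'.card := card_image_le
    have hU0 : ∀ u ∈ U, u.1 ≠ 0 := by
      intro u hu
      rw [hU, mem_image] at hu
      obtain ⟨z, _, rfl⟩ := hu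
      exact neg_ne_zero.mpr (Units.ne_zero _)
    obtain ⟨d, hd1, hd2⟩ : ∃ d, 2 * d + 1 ≤ x ∧ x ≤ 2 * (d + 1) := ⟨(x - 1) / 2, by omega, by omega⟩
    have hcnt : 2 * U.card < (d + 1) * (d + 2) := by
      have h1 : x ^ 2 ≤ (2 * (d + 1)) ^ 2 := Nat.pow_le_pow_left hd2 2
      have h2 : 8 * U.card < (2 * (d + 1)) ^ 2 := by omega
      nlinarith
    obtain ⟨D, hD0, hD1, hD2⟩ := exists_D d U hcnt
    obtain ⟨D', a1, a2, a3⟩ := exists_D' d U hU0 D hD0 hD1 hD2
    set T0 := (univ : Finset (ZMod p)ˣ).image fun c : (ZMod p)ˣ => -((c⁻¹ : (ZMod p)ˣ) : ZMod p)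
      with hT0
    have hT0c : T0.card = p - 1 := by
      rw [hT0, card_image_of_injective _ hinj, card_univ, hunits]
    have h3 := no_cover (A := A) hA hL (d := d) a2 a1 T0 (by omega) (by omega) (by
        intro t ht y
        rw [hT0, mem_image] at ht
        obtain ⟨c, _, rfl⟩ := ht
        by_cases hfree : (c, (c : ZMod p) * y) ∈ U'
        · have hm : (-((c⁻¹ : (ZMod p)ˣ) : ZMod p), y) ∈ U := by
            rw [hU, mem_image]
            refine ⟨_, hfree, ?_⟩
            refine Prod.ext rfl ?_
            show ((c⁻¹ : (ZMod p)ˣ) : ZMod p) * ((c : ZMod p) * y) = y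
            rw [← mul_assoc, Units.inv_mul, one_mul]
          rw [a3 _ hm, zero_mul]
        · rw [hU', mem_filter] at hfree
          push Not at hfree
          rw [HH_eval_zero c y (hfree (mem_univ _)), mul_zero])
    omega

end Pool.Agent.Results.MP_3c1bce_co.ManyDilates
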