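import Pool.Agent.Lib.MP_3c1bce_co.TwoDiffC

/-!
# Large gaps in dilates of sets with few components with respect to two differences
-/

set_option autoImplicit false

open scoped Pointwise

namespace Pool.Agent.Results.MP_3c1bce_co.TwoDifferences

/-- Let `A` be a set of residues modulo a prime `p ≥ 1000` with `|A| ≤ √p`, let `q₁`, `q₂` be nonzero
residues and `b` the number of connected components of the graph on `A` in which two elements are
adjacent iff they differ by `± q₁` or `± q₂`. If `4 b L ≤ p`, then some dilate of `A` has a gap of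
length `L`. -/
theorem result (p : ℕ) [Fact p.Prime] (hp : 1000 ≤ p) (A : Finset (ZMod p))
    (hA : A.card ^ 2 ≤ p) (q₁ q₂ : ZMod p) (hq₁ : q₁ ≠ 0) (hq₂ : q₂ ≠ 0) (L : ℕ)
    (hL : 4 * (Nat.card (SimpleGraph.fromRel (fun a b : {a // a ∈ A} =>
      (b : ZMod p) - a = q₁ ∨ (b : ZMod p) - a = q₂)).ConnectedComponent * L) ≤ p) :
    ∃ c : (ZMod p)ˣ, Nc949c4d7.HasGap (c • A) L :=
  Pool.Agent.Lib.MP_3c1bce_co.TwoDiff.main_comp hp A hA q₁ q₂ hq₁ hq₂ L hL

end Pool.Agent.Results.MP_3c1bce_co.TwoDifferences
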