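import Pool.Agent.Lib.DilW.Fin2

/-!
# Windows with few and with many elements of the dilates of a set

For arbitrary `A, I ⊆ ℤ/p` the numbers `N c x = |c A ∩ (x + I)|`, taken over all dilates `c A` and all
positions `x`, satisfy sharp second moment inequalities, with an error term which is small if `I` is a
union of few arithmetic progressions with a common difference `d`.
-/

set_option autoImplicit false

open Finset

namespace Pool.Agent.Results.MP_3c1bce_co.WindowMoments

variable {p : ℕ} [Fact p.Prime]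

/-- the number of the elements of the dilate `c A` in the window `x + I` -/
def N (A I : Finset (ZMod p)) (c : (ZMod p)ˣ) (x : ZMod p) : ℕ :=
  (A.filter fun a => (c : ZMod p) * a - x ∈ I).card

/-- the number of the `i ∈ I` with `i + d ∉ I` -/
def blocks (I : Finset (ZMod p)) (d : ZMod p) : ℕ := (I.filter fun i => i + d ∉ I).card

/-- Let `p` be a prime, `A, I ⊆ ℤ/p`, `d ≠ 0`, `s ≥ 1`, `b = blocks I d`. Subtractions of natural numbers
are truncated at 0; the sums are over all nonzero residues `c` and all residues `x`.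
(1) `s ((s+1) p - |A| |I|)^2 ≤ (s+1) ∑ (s - N)(s + 1 - N) + 3 (s+1) s^3 p (|A| b + |I| + 1)`;
(2) if `|A| |I| ≤ (s+1) p` then
`(s+1) ∑ (N - s)(N - s - 1) ≤ (|A| |I|)^2 + 4 (s+1) s^3 p (|A| b + |I| + 1)`. -/
theorem result (p : ℕ) [Fact p.Prime] (A I : Finset (ZMod p)) (d : ZMod p) (hd : d ≠ 0) (s : ℕ)
    (hs : 1 ≤ s) :
    (s * ((s + 1) * p - A.card * I.card) ^ 2 ≤
      (s + 1) * (∑ c : (ZMod p)ˣ, ∑ x : ZMod p, (s - N A I c x) * (s + 1 - N A I c x)) +
        3 * (s + 1) * s ^ 3 * p * (A.card * blocks I d + I.card + 1)) ∧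
    (A.card * I.card ≤ (s + 1) * p →
      (s + 1) * (∑ c : (ZMod p)ˣ, ∑ x : ZMod p, (N A I c x - s) * (N A I c x - s - 1)) ≤
        (A.card * I.card) ^ 2 +
          4 * (s + 1) * s ^ 3 * p * (A.card * blocks I d + I.card + 1)) := by
  obtain ⟨I', h1, h2, h3⟩ := DilW.fin3 A I d hd
  have hb : blocks I d = DilW.bb I' := h2.symm
  have e1 : (∑ c : (ZMod p)ˣ, ∑ x : ZMod p, (s - N A I c x) * (s + 1 - N A I c x)) =
      ∑ c : (ZMod p)ˣ, ∑ x : ZMod p, (s - DilW.NC A I' c x) * (s + 1 - DilW.NC A I' c x) :=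
    h3 fun n => (s - n) * (s + 1 - n)
  have e2 : (∑ c : (ZMod p)ˣ, ∑ x : ZMod p, (N A I c x - s) * (N A I c x - s - 1)) =
      ∑ c : (ZMod p)ˣ, ∑ x : ZMod p, (DilW.NC A I' c x - s) * (DilW.NC A I' c x - s - 1) :=
    h3 fun n => (n - s) * (n - s - 1)
  have f1 := DilW.fin1 A I' hs
  rw [h1, ← hb, ← e1] at f1
  refine ⟨f1, fun hD => ?_⟩
  have f2 := DilW.fin2 A I' hs (by rw [h1]; exact hD)
  rw [h1, ← hb, ← e2] at f2
  exact f2

end Pool.Agent.Results.MP_3c1bce_co.WindowMoments
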